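import Pool.Agent.Q185.GK.Main

/-!
# MP_c69494_co: the graphs `G_k` of Hanson and Toft have no minimal orientation, for all `k ≥ 4`

Let `D` be an orientation of `G_k` with at most one directed path on `k` vertices. (1) Take a
maximal acyclic set of arcs and its levels `0, …, k - 1`: they form a proper colouring, all edges
between consecutive levels are directed upwards, and by uniqueness there is exactly one vertex of
level `k - 1` and the path `s 0, …, s (k - 1)` has the property that `s j` is the only neighbour of
`s (j + 1)` of level `j`. (2) Each `G_i` misses exactly three colours; as the top colour is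
used once, the colours of `x_1, …, x_7` follow one of four patterns (up to rotation and renaming).
(3) In each pattern two of the three complete graphs at `x_i` contain the colour below the colour
of `x_i`, so the path cannot pass through the relevant `x_i` above level `0`; it stays inside
one complete graph `G_i` on all levels `≥ 1`, which misses a colour there: a contradiction.
-/

namespace Pool.Agent.Results.MP_c69494_co.NoMinimalOrientation

open Pool.Q185.GK

/-- For every `k ≥ 4` the graph `G_k` has no minimal orientation; in fact every orientation of
`G_k` contains at least two directed paths on `k` vertices. -/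
theorem result :
    (∀ k : ℕ, 4 ≤ k → ¬ HasMinimalOrientation (Gk k) k) ∧
    ∀ k : ℕ, 4 ≤ k → ∀ D : (ZMod 7 ⊕ ZMod 7 × Fin (k - 3)) → (ZMod 7 ⊕ ZMod 7 × Fin (k - 3)) → Prop,
      IsOrientation (Gk k) D →
      ∃ p q : Fin k → (ZMod 7 ⊕ ZMod 7 × Fin (k - 3)),
        IsDirPath D k p ∧ IsDirPath D k q ∧ p ≠ q := by
  refine ⟨?_, ?_⟩
  · rintro k hk ⟨D, hD, p0, _, huniq⟩
    exact no_minimal k hk D hD (fun p q hp hq => (huniq p hp).trans (huniq q hq).symm)
  · intro k hk D hD
    by_contra hcon
    push Not at hcon
    exact no_minimal k hk D hD hcon

end Pool.Agent.Results.MP_c69494_co.NoMinimalOrientation
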